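import Pool.Agent.Y423.HY.Fam
import Pool.Agent.Y423.HY.Circ

set_option autoImplicit false

/-!
# The Havet–Yu conjecture for Cartesian products

`P` is the Cartesian product of the finite graphs `G i`.  Nothing is assumed about the factors `G i`
with `i ∈ I`; their product has maximum degree `D`, the sum of the maximum degrees, and
`D + err D (p + 1) ≤ 2q` (or `I = ∅`), where `err D p` is of the order `p + log D`.  All other
factors can be coloured with `2q` colours (for example because their maximum degree is less than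
`D`).  If the maximum degrees of the bipartite factors `G i`, `i ∈ K`, plus the number of the
factors `G i`, `i ∈ J`, which have a matching covering all vertices of maximum degree, is at least
`2q - p - D` (so of the order `p + log D`), then `P` has a `(p,1)`-total labelling of span
`Δ(P) + 2p - 1`.
-/

namespace Pool.Agent.Results.MP_b8729f_co.HavetYuProducts

open SimpleGraph Finset Pool.Agent.Y423.HY Pool.Agent.Y423.LA Pool.Agent.H238R2.HY

/-- `G` has a `(p,1)`-total labelling with labels `0, …, Δ(G) + 2p - 1` (the conclusion of the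
frozen statement S11015). -/
def HavetYu {V : Type} [Fintype V] (G : SimpleGraph V) [DecidableRel G.Adj] (p : ℕ) : Prop :=
  ∃ (fV : V → ℕ) (fE : Sym2 V → ℕ),
    (∀ v : V, fV v ≤ G.maxDegree + 2 * p - 1) ∧
    (∀ e ∈ G.edgeSet, fE e ≤ G.maxDegree + 2 * p - 1) ∧
    (∀ u v : V, G.Adj u v → fV u ≠ fV v) ∧
    (∀ u v : V, G.Adj u v → (p : ℤ) ≤ |(fV u : ℤ) - (fE s(u, v) : ℤ)|) ∧
    (∀ u v w : V, G.Adj u v → G.Adj u w → v ≠ w → fE s(u, v) ≠ fE s(u, w))

/-- `G` has a matching which covers all vertices of maximum degree. -/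
def CoversMax {V : Type} [Fintype V] (G : SimpleGraph V) [DecidableRel G.Adj] : Prop :=
  ∃ N ≤ G, (∀ u v w, N.Adj u v → N.Adj u w → v = w) ∧
    ∀ v, G.degree v = G.maxDegree → ∃ w, N.Adj v w

/-- Every graph of maximum degree `D` has a circular `(p,1)`-total labelling with at most
`D + err D p` labels (starting results LogarithmicError and Asymptotic). -/
noncomputable def err (D p : ℕ) : ℝ :=
  min (66 * p + 524 * Real.log (D + 1))
    (2 * p + 1 + 8 * ((D : ℝ) ^ (2 / 3 : ℝ) * Real.log D ^ (1 / 3 : ℝ)))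

theorem ncard_deg {V : Type} [Fintype V] (G : SimpleGraph V) [DecidableRel G.Adj] (v : V) :
    (G.neighborSet v).ncard = G.degree v := by
  rw [← card_neighborSet_eq_degree, ← Nat.card_eq_fintype_card]
  rfl

theorem err_mono {D D' : ℕ} (h : D ≤ D') (p : ℕ) : err D p ≤ err D' p := by
  have hr : (D : ℝ) ≤ D' := by exact_mod_cast h
  have h0 : (0 : ℝ) ≤ D := Nat.cast_nonneg _
  unfold err
  refine min_le_min ?_ ?_
  · have : Real.log ((D : ℝ) + 1) ≤ Real.log (D' + 1) :=
      Real.log_le_log (by linarith) (by linarith)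
    linarith
  · have hl : 0 ≤ Real.log D := Real.log_natCast_nonneg D
    have hl' : 0 ≤ Real.log D' := Real.log_natCast_nonneg D'
    rcases Nat.eq_zero_or_pos D with rfl | hD
    · have h1 : ((0 : ℕ) : ℝ) ^ (2 / 3 : ℝ) = 0 := by
        rw [Nat.cast_zero]
        exact Real.zero_rpow (by norm_num)
      rw [h1, zero_mul]
      have : 0 ≤ (D' : ℝ) ^ (2 / 3 : ℝ) * Real.log D' ^ (1 / 3 : ℝ) := by positivity
      linarith
    · have hD1 : (0 : ℝ) < D := by exact_mod_cast hD
      have h1 : (D : ℝ) ^ (2 / 3 : ℝ) ≤ (D' : ℝ) ^ (2 / 3 : ℝ) :=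
        Real.rpow_le_rpow h0 hr (by norm_num)
      have h2 : Real.log D ^ (1 / 3 : ℝ) ≤ Real.log D' ^ (1 / 3 : ℝ) :=
        Real.rpow_le_rpow hl (Real.log_le_log hD1 hr) (by norm_num)
      have h3 : (D : ℝ) ^ (2 / 3 : ℝ) * Real.log D ^ (1 / 3 : ℝ) ≤
          (D' : ℝ) ^ (2 / 3 : ℝ) * Real.log D' ^ (1 / 3 : ℝ) :=
        mul_le_mul h1 h2 (by positivity) (by positivity)
      linarith

theorem err_ge (D p : ℕ) : (2 * p : ℝ) ≤ err D p := by
  unfold err
  have hp : (0 : ℝ) ≤ p := Nat.cast_nonneg _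
  have hD : (0 : ℝ) ≤ D := Nat.cast_nonneg _
  have hl : 0 ≤ Real.log D := Real.log_natCast_nonneg D
  have h1 : 0 ≤ (D : ℝ) ^ (2 / 3 : ℝ) * Real.log D ^ (1 / 3 : ℝ) := by positivity
  have h2 : 0 ≤ Real.log ((D : ℝ) + 1) := Real.log_nonneg (by linarith)
  exact le_min (by linarith) (by linarith)

theorem circ_err {V : Type} [Fintype V] (G : SimpleGraph V) [DecidableRel G.Adj] (p : ℕ)
    (hp : 1 ≤ p) : ∃ N : ℕ, (N : ℝ) ≤ G.maxDegree + err G.maxDegree p ∧ CircLab G p N := by
  obtain ⟨N1, h1, h1'⟩ := circ_log G p hp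
  obtain ⟨N2, h2, h2'⟩ := Pool.Agent.H238R2.HY.main G p hp
  unfold err
  rcases min_choice (66 * (p : ℝ) + 524 * Real.log ((G.maxDegree : ℝ) + 1))
    (2 * p + 1 + 8 * ((G.maxDegree : ℝ) ^ (2 / 3 : ℝ) * Real.log G.maxDegree ^ (1 / 3 : ℝ)))
    with h | h
  · rw [h]
    exact ⟨N1, by linarith, h1'⟩
  · rw [h]
    refine ⟨N2, ?_, h2'⟩
    unfold Pool.Agent.H238R2.HY.err at h2
    linarith

theorem result :
    ∀ (ι : Type) [Fintype ι] (V : ι → Type) [∀ i, Fintype (V i)]
      (G : ∀ i, SimpleGraph (V i)) [∀ i, DecidableRel (G i).Adj]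
      [Fintype (∀ i, V i)] (P : SimpleGraph (∀ i, V i)) [DecidableRel P.Adj]
      (I K J : Finset ι) (p q : ℕ),
      (∀ x y, P.Adj x y ↔ ∃ i, (G i).Adj (x i) (y i) ∧ ∀ j, j ≠ i → x j = y j) →
      Disjoint I K → Disjoint I J → Disjoint K J → 1 ≤ p → 1 ≤ q →
      (I = ∅ ∨ ∑ i ∈ I, ((G i).maxDegree : ℝ) + err (∑ i ∈ I, (G i).maxDegree) (p + 1) ≤ 2 * q) →
      (∀ i ∉ I, (G i).Colorable (2 * q)) →
      (∀ i ∈ K, (G i).Colorable 2) →
      (∀ i ∈ J, CoversMax (G i) ∧
        ((G i).maxDegree ≤ q ∨ ∃ r, (G i).Colorable r ∧ r * (r - 1) ≤ 2 * q)) →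
      ((1 ≤ ∑ i ∈ K, (G i).maxDegree ∧
          2 * q ≤ p + ∑ i ∈ I, (G i).maxDegree + ∑ i ∈ K, (G i).maxDegree + J.card) ∨
        2 * q + 1 ≤ p + ∑ i ∈ I, (G i).maxDegree + J.card) →
      HavetYu P p := by
  intro ι _ V _ G _ _ P _ I K J p q hP hIK hIJ hKJ hp hq h0 hcol hK hJ hcond
  classical
  have hPe : P = piG G := by
    ext x y
    rw [hP, piG_adj]
  suffices h : Lab P p (P.maxDegree + 2 * p - 1) from h
  by_cases hne : Nonempty (∀ i, V i)
  swap
  · have hE : IsEmpty (∀ i, V i) := not_nonempty_iff.1 hne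
    exact Lab.of_fun (fun _ => 0) (fun _ _ => 0) (fun v => hE.elim v) (fun v => hE.elim v)
      (fun v => hE.elim v) (fun v => hE.elim v) (fun v => hE.elim v) (fun v => hE.elim v)
  obtain ⟨z⟩ := hne
  have : ∀ i, Nonempty (V i) := fun i => ⟨z i⟩
  have hv0 := fun i => (G i).exists_maximal_degree_vertex
  choose v0 hv0 using hv0
  have hmax : ∑ i, (G i).maxDegree ≤ P.maxDegree := by
    have h1 := P.degree_le_maxDegree v0
    rw [← ncard_deg] at h1
    have h2 : (P.neighborSet v0).ncard = ∑ i, (G i).maxDegree := by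
      rw [hPe, piG_deg]
      exact sum_congr rfl fun i _ => by rw [ncard_deg, ← hv0 i]
    rwa [h2] at h1
  have hJ1 := fun i (hi : i ∈ J) => (hJ i hi).1
  choose! N hN using hJ1
  have hcirc : I = ∅ ∨ (p + 1 + ∑ i ∈ I, (G i).maxDegree ≤ 2 * q ∧ ∃ N0 ≤ 2 * q,
      CircLab (piG (fun i : {i // i ∈ I} => G i.1)) (p + 1) N0) := by
    rcases h0 with h0 | h0
    · exact Or.inl h0
    right
    obtain ⟨N0, h1, h2⟩ := circ_err (piG (fun i : {i // i ∈ I} => G i.1)) (p + 1) (by omega)
    have h3 : (piG (fun i : {i // i ∈ I} => G i.1)).maxDegree ≤ ∑ i ∈ I, (G i).maxDegree := by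
      refine maxDegree_le_of_forall_degree_le _ _ fun x => ?_
      rw [← ncard_deg, piG_deg, ← sum_coe_sort I (fun i => (G i).maxDegree)]
      exact sum_le_sum fun i _ => by
        rw [ncard_deg]
        exact (G i.1).degree_le_maxDegree _
    have h4 := err_mono h3 (p + 1)
    have h5 : ((piG (fun i : {i // i ∈ I} => G i.1)).maxDegree : ℝ) ≤
        ∑ i ∈ I, ((G i).maxDegree : ℝ) := by exact_mod_cast h3
    have h6 := err_ge (∑ i ∈ I, (G i).maxDegree) (p + 1)
    refine ⟨?_, N0, ?_, h2⟩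
    · have h7 : ((p + 1 + ∑ i ∈ I, (G i).maxDegree : ℕ) : ℝ) ≤ ((2 * q : ℕ) : ℝ) := by
        push_cast at h6 ⊢
        have : (0 : ℝ) ≤ p := Nat.cast_nonneg _
        linarith
      exact_mod_cast h7
    · have h7 : (N0 : ℝ) ≤ ((2 * q : ℕ) : ℝ) := by
        push_cast
        linarith
      exact_mod_cast h7
  have hmain := fam G N p q (fun i => (G i).maxDegree) I K J hIK hIJ hKJ hp hq
    (fun i v => by rw [ncard_deg]; exact (G i).degree_le_maxDegree v) hcol hK
    (fun i hi => by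
      obtain ⟨w, hw⟩ := (hN i hi).2.2 (v0 i) (hv0 i).symm
      rw [hv0 i]
      exact (degree_pos_iff_exists_adj (G i) (v0 i)).2 ⟨w, (hN i hi).1 hw⟩)
    (fun i hi => (hN i hi).1)
    (fun i hi v => (Set.ncard_le_one_iff (Set.toFinite _)).2
      (fun {a b} ha hb => (hN i hi).2.1 v a b ha hb))
    (fun i hi v => by
      have hsub : ((G i \ N i).neighborSet v) ⊆ (G i).neighborSet v := fun w hw => by
        rw [mem_neighborSet, sdiff_adj] at hw
        exact hw.1
      rcases lt_or_eq_of_le ((G i).degree_le_maxDegree v) with h | h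
      · have h1 := Set.ncard_le_ncard hsub (Set.toFinite _)
        rw [ncard_deg (G i)] at h1
        omega
      · obtain ⟨w, hw⟩ := (hN i hi).2.2 v h
        have h1 : ((G i \ N i).neighborSet v).ncard < ((G i).neighborSet v).ncard := by
          refine Set.ncard_lt_ncard ⟨hsub, fun hcon => ?_⟩ (Set.toFinite _)
          have h2 : w ∈ (G i).neighborSet v := (hN i hi).1 hw
          have h3 := hcon h2
          rw [mem_neighborSet, sdiff_adj] at h3
          exact h3.2 hw
        rw [ncard_deg (G i), h] at h1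
        omega)
    (fun i hi => (hJ i hi).2) hcirc hcond
  rw [← hPe] at hmain
  obtain ⟨fV, fE, h1, h2, h3⟩ := hmain
  exact ⟨fV, fE, fun v => (h1 v).trans (by omega), fun e he => (h2 e he).trans (by omega), h3⟩

end Pool.Agent.Results.MP_b8729f_co.HavetYuProducts
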