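import Pool.Agent.Y393.RS.All

/-!
# (p,1)-total labellings from lists of all dense random graphs with independent edges

With high probability, every random graph with independent edges such that every vertex whose
expected degree is close to the maximum has at least `c n` uncertain edges has a `(p,1)`-total
labelling from all lists of `Δ + 2 p - 1` labels (the Havet-Yu conjecture gives `Δ + 2 p` labels
when all lists are equal). The bound is uniform over all such random graphs: block models, random
subgraphs of any graph of linear maximum degree, randomly perturbed graphs. The starting result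
`AlmostAllLists` is the case in which all edge probabilities are `1/2`.

Project of helper393 with helpers 891, 961, 232, 125, 333, 256. The theorems on list edge colourings and
(p,1)-total labellings of graphs with few vertices of large degree are those of the project of
helper162 in the starting repository.
-/

set_option autoImplicit false

namespace Pool.Agent.Results.MP_b8729f_co.RandomGraphsLists

/-- Edge probabilities: `q e` is the probability that the pair `e` is an edge; all pairs are
independent. `prob q P` is the probability that the random graph has the property `P`. -/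
noncomputable def prob {n : ℕ} (q : Sym2 (Fin n) → ℝ) (P : SimpleGraph (Fin n) → Prop) : ℝ := by
  classical exact ∑ G : SimpleGraph (Fin n), if P G then
    (∏ e : {e : Sym2 (Fin n) // ¬ e.IsDiag}, if e.1 ∈ G.edgeSet then q e.1 else 1 - q e.1) else 0

/-- The expected degree of the vertex `v`. -/
noncomputable def expectedDegree {n : ℕ} (q : Sym2 (Fin n) → ℝ) (v : Fin n) : ℝ :=
  ∑ w ∈ Finset.univ.erase v, q s(v, w)

/-- The uncertainty at the vertex `v`: the sum of `min (q, 1 - q)` over all pairs at `v`. -/
noncomputable def uncertainty {n : ℕ} (q : Sym2 (Fin n) → ℝ) (v : Fin n) : ℝ :=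
  ∑ w ∈ Finset.univ.erase v, min (q s(v, w)) (1 - q s(v, w))

/-- The degree of `v` in `G`. -/
noncomputable def deg {n : ℕ} (G : SimpleGraph (Fin n)) (v : Fin n) : ℝ :=
  ((G.neighborSet v).ncard : ℝ)

/-- `fV`, `fE` is a `(p,1)`-total labelling of `G`: adjacent vertices get different labels, edges
with a common end get different labels, the labels of a vertex and of an edge at it differ by at
least `p`. -/
def IsLabelling {V : Type} (p : ℕ) (G : SimpleGraph V) (fV : V → ℕ) (fE : Sym2 V → ℕ) : Prop :=
  (∀ u v : V, G.Adj u v → fV u ≠ fV v) ∧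
  (∀ u v : V, G.Adj u v → (p : ℤ) ≤ |(fV u : ℤ) - (fE s(u, v) : ℤ)|) ∧
  (∀ u v w : V, G.Adj u v → G.Adj u w → v ≠ w → fE s(u, v) ≠ fE s(u, w))

/-- `G` has a `(p,1)`-total labelling from all lists of at least `Δ(G) + 2 p - 1` labels. -/
def Lists (p : ℕ) {V : Type} [Fintype V] (G : SimpleGraph V) : Prop :=
  ∀ [DecidableRel G.Adj] (M : V → Finset ℕ) (L : Sym2 V → Finset ℕ),
    (∀ v, G.maxDegree + 2 * p - 1 ≤ (M v).card) →
    (∀ e ∈ G.edgeSet, G.maxDegree + 2 * p - 1 ≤ (L e).card) →
    ∃ (fV : V → ℕ) (fE : Sym2 V → ℕ), (∀ v : V, fV v ∈ M v) ∧ (∀ e ∈ G.edgeSet, fE e ∈ L e) ∧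
      IsLabelling p G fV fE

/-- For all `p ≥ 1`, `c > 0` and `ε > 0` and all large `n`:

(1) Every random graph on `n` vertices with independent edges in which every vertex has
uncertainty at least `c n`, or expected degree at least `c n` below the largest one, has with
probability at least `1 - ε` a `(p,1)`-total labelling from all lists of `Δ + 2 p - 1` labels.

(2) Let `F ≤ B` be graphs on `n` vertices such that every vertex `v` satisfies
`deg B v - deg F v ≥ c n`, or `deg F v + deg B v ≤ max (deg F + deg B) - c n`. All but an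
`ε`-fraction of the graphs `G` with `F ≤ G ≤ B` have such labellings.

(3) Let `B` be a graph on `n` vertices with maximum degree at least `c n`. All but an `ε`-fraction
of the spanning subgraphs of `B` have such labellings. -/
theorem result (p : ℕ) (hp : 1 ≤ p) :
    (∀ c ε : ℝ, 0 < c → 0 < ε → ∃ N : ℕ, ∀ n : ℕ, N ≤ n → ∀ q : Sym2 (Fin n) → ℝ,
      (∀ e, 0 ≤ q e ∧ q e ≤ 1) →
      (∀ v, c * n ≤ uncertainty q v ∨
        ∃ u, expectedDegree q v + c * n ≤ expectedDegree q u) →
      1 - ε ≤ prob q (fun G => Lists p G)) ∧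
    (∀ c ε : ℝ, 0 < c → 0 < ε → ∃ N : ℕ, ∀ n : ℕ, N ≤ n → ∀ F B : SimpleGraph (Fin n), F ≤ B →
      (∀ v, deg F v + c * n ≤ deg B v ∨ ∃ u, deg F v + deg B v + c * n ≤ deg F u + deg B u) →
      ({G : SimpleGraph (Fin n) | F ≤ G ∧ G ≤ B ∧ ¬ Lists p G}.ncard : ℝ) ≤
        ε * {G : SimpleGraph (Fin n) | F ≤ G ∧ G ≤ B}.ncard) ∧
    ∀ c ε : ℝ, 0 < c → 0 < ε → ∃ N : ℕ, ∀ n : ℕ, N ≤ n → ∀ B : SimpleGraph (Fin n),
      (∃ v, c * n ≤ deg B v) →
      ({G : SimpleGraph (Fin n) | G ≤ B ∧ ¬ Lists p G}.ncard : ℝ) ≤
        ε * {G : SimpleGraph (Fin n) | G ≤ B}.ncard :=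
  ⟨fun c ε hc hε => ((Pool.Agent.Y393.RS.typical_lists p hp).1 c ε hc hε).imp
      fun _ h n hn q h1 h2 => h n hn q ⟨h1, h2⟩,
    (Pool.Agent.Y393.RS.typical_lists p hp).2.1, (Pool.Agent.Y393.RS.typical_lists p hp).2.2⟩

end Pool.Agent.Results.MP_b8729f_co.RandomGraphsLists
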