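import Pool.Agent.Y423.HY.Err

set_option autoImplicit false

/-!
# Circular (p,1)-total labellings of products with a sparse factor

`P = G □ B` is the Cartesian product of an arbitrary finite graph `G` and of a finite graph `B` of
maximum average degree at most `a`, with `34 a (1 + log Δ(B)) ≤ Δ(B)` and
`err Δ(G) (p + ⌊4pa⌋) ≤ Δ(B) + 2p - 1`.  Then `P` has a circular `(p,1)`-total labelling with `N`
labels if and only if `N ≥ Δ(P) + 2p - 1`; in particular it has a `(p,1)`-total labelling of span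
`Δ(P) + 2p - 2`, one less than in the Havet–Yu conjecture, and for `p = 1` its total chromatic
number is `Δ(P) + 1`.
-/

namespace Pool.Agent.Results.MP_b8729f_co.SparseFactor

open SimpleGraph Pool.Agent.Y423.HY Pool.Agent.H238R2.HY

/-- `TotalLabeling G p l`: the graph `G` has a `(p,1)`-total labeling of span `l`, that is, labels
`0, …, l` for the vertices (`fV`) and the edges (`fE`) such that adjacent vertices get different
labels, edges sharing an endpoint get different labels, and the labels of a vertex and of an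
incident edge differ by at least `p`. -/
def TotalLabeling {V : Type} (G : SimpleGraph V) (p l : ℕ) : Prop :=
  ∃ (fV : V → ℕ) (fE : Sym2 V → ℕ),
    (∀ v, fV v ≤ l) ∧ (∀ e ∈ G.edgeSet, fE e ≤ l) ∧
    (∀ u v, G.Adj u v → fV u ≠ fV v) ∧
    (∀ u v w, G.Adj u v → G.Adj u w → v ≠ w → fE s(u, v) ≠ fE s(u, w)) ∧
    (∀ u v, G.Adj u v → (p : ℤ) ≤ |(fV u : ℤ) - (fE s(u, v) : ℤ)|)

/-- `CircularLabeling G p N`: a circular `(p,1)`-total labeling of `G` with the `N` labels
`0, …, N - 1` placed around a circle: as above, but the distance of the labels of a vertex and of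
an incident edge, measured around the circle, is at least `p`
(so `p ≤ |fV u - fE uv| ≤ N - p`). -/
def CircularLabeling {V : Type} (G : SimpleGraph V) (p N : ℕ) : Prop :=
  ∃ (fV : V → ℕ) (fE : Sym2 V → ℕ),
    (∀ v, fV v < N) ∧ (∀ e ∈ G.edgeSet, fE e < N) ∧
    (∀ u v, G.Adj u v → fV u ≠ fV v) ∧
    (∀ u v w, G.Adj u v → G.Adj u w → v ≠ w → fE s(u, v) ≠ fE s(u, w)) ∧
    (∀ u v, G.Adj u v → (p : ℤ) ≤ |(fV u : ℤ) - (fE s(u, v) : ℤ)| ∧
      |(fV u : ℤ) - (fE s(u, v) : ℤ)| ≤ (N : ℤ) - p)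

theorem circ_mono {V : Type} {G : SimpleGraph V} {p M N : ℕ} (h : CircularLabeling G p M)
    (hMN : M ≤ N) : CircularLabeling G p N := by
  obtain ⟨fV, fE, h1, h2, h3, h4, h5⟩ := h
  have hr : (M : ℤ) ≤ N := by exact_mod_cast hMN
  exact ⟨fV, fE, fun v => (h1 v).trans_le hMN, fun e he => (h2 e he).trans_le hMN, h3, h4,
    fun u v h => ⟨(h5 u v h).1, (h5 u v h).2.trans (by linarith)⟩⟩

theorem ncard_deg {V : Type} [Fintype V] (G : SimpleGraph V) [DecidableRel G.Adj] (v : V) :
    (G.neighborSet v).ncard = G.degree v := by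
  rw [← card_neighborSet_eq_degree, ← Nat.card_eq_fintype_card]
  rfl

theorem result :
    ∀ (W X : Type) [Fintype W] [Fintype X] [Nonempty W] (G : SimpleGraph W) (B : SimpleGraph X)
      [DecidableRel G.Adj] [DecidableRel B.Adj] (P : SimpleGraph (W × X)) [DecidableRel P.Adj]
      (p : ℕ) (a : ℝ),
      P = G.boxProd B → 1 ≤ p →
      (∀ Y : Finset X,
        ({e : X × X | e.1 ∈ Y ∧ e.2 ∈ Y ∧ B.Adj e.1 e.2}.ncard : ℝ) ≤ a * Y.card) →
      34 * a * (1 + Real.log B.maxDegree) ≤ B.maxDegree →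
      err G.maxDegree (p + ⌊4 * p * a⌋₊) ≤ (B.maxDegree : ℝ) + 2 * p - 1 →
      (∀ N : ℕ, CircularLabeling P p N ↔ P.maxDegree + 2 * p - 1 ≤ N) ∧
      TotalLabeling P p (P.maxDegree + 2 * p - 2) := by
  intro W X _ _ _ G B _ _ P _ p a hP hp hmad ha herr
  classical
  set K := ⌊4 * p * a⌋₊ with hK
  have h1 := err_ge G.maxDegree (p + K)
  have hKD : K ≤ B.maxDegree ∧ 1 ≤ B.maxDegree := by
    have h2 : ((2 * (p + K) + 1 : ℕ) : ℝ) ≤ ((B.maxDegree + 2 * p : ℕ) : ℝ) := by
      push_cast at h1 ⊢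
      linarith
    have h3 : 2 * (p + K) + 1 ≤ B.maxDegree + 2 * p := by exact_mod_cast h2
    omega
  obtain ⟨N, hN, fV, fE, a1, a2, a3, a4, a5⟩ := circ_err G (p + K) (by omega)
  obtain ⟨gV, gE, b1, b2, b3, b4, b5⟩ := sparse_circ p hp B B.maxDegree K
    (fun v => by rw [ncard_deg]; exact B.degree_le_maxDegree v) a hmad ha
    (Nat.lt_floor_add_one _) hKD.1
  have hNM : N ≤ B.maxDegree + 2 * p - 1 + G.maxDegree := by
    have h2 : (N : ℝ) + 1 ≤ ((B.maxDegree + 2 * p + G.maxDegree : ℕ) : ℝ) := by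
      push_cast
      linarith
    have h3 : N + 1 ≤ B.maxDegree + 2 * p + G.maxDegree := by exact_mod_cast h2
    omega
  have hcirc := trans G B p K (B.maxDegree + 2 * p - 1) N G.maxDegree hp (by omega) fV fE a1 a2 a3
    a4 a5 (fun v => by rw [ncard_deg]; exact G.degree_le_maxDegree v) hNM gV gE b1 b2 b3 b4 b5
  rw [← hP] at hcirc
  -- the maximum degree
  obtain ⟨w, hw⟩ := G.exists_maximal_degree_vertex
  have hX : Nonempty X := by
    by_contra hX
    rw [not_nonempty_iff] at hX
    have : B.maxDegree = 0 := by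
      rw [SimpleGraph.maxDegree]
      simp
    omega
  obtain ⟨x, hx⟩ := B.exists_maximal_degree_vertex
  have hdeg : ∀ z : W × X, P.degree z = G.degree z.1 + B.degree z.2 := fun z => by
    rw [← ncard_deg, hP, box_deg, ncard_deg, ncard_deg]
  have hmax : P.maxDegree = G.maxDegree + B.maxDegree := by
    refine le_antisymm (maxDegree_le_of_forall_degree_le _ _ fun z => ?_) ?_
    · rw [hdeg]
      exact add_le_add (G.degree_le_maxDegree _) (B.degree_le_maxDegree _)
    · have h2 := P.degree_le_maxDegree (w, x)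
      rwa [hdeg, ← hw, ← hx] at h2
  have e : B.maxDegree + 2 * p - 1 + G.maxDegree = P.maxDegree + 2 * p - 1 := by omega
  rw [e] at hcirc
  refine ⟨fun n => ⟨fun h => ?_, fun h => circ_mono hcirc h⟩, ?_⟩
  · have h2 := circ_lower P p n (by omega) h
    omega
  · obtain ⟨cV, cE, h2, h3, h4, h5, h6⟩ := hcirc
    exact ⟨cV, cE, fun v => by have := h2 v; omega, fun e he => by have := h3 e he; omega, h4, h5,
      fun u v h => (h6 u v h).1⟩

end Pool.Agent.Results.MP_b8729f_co.SparseFactor
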